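import Pool.Agent.W770.PC.SphStms

set_option autoImplicit false

/-! PC-stame (MP_6cbfb8_an): the phases of the sphere are tame. -/

open MeasureTheory Set Filter Topology
open scoped ENNReal NNReal

namespace Pool.Agent.W410.PC
open Pool.Agent.W770.PC

lemma hess_nonneg (g : ℝ × ℝ → ℝ) (y : ℝ × ℝ) : 0 ≤ hess g y := by
  unfold hess; positivity

lemma NN_nonneg (g : ℝ × ℝ → ℝ) (a : ℕ) (k : ℕ × ℕ) : 0 ≤ NN g a k :=
  integral_nonneg fun y => hess_nonneg g y

lemma cell_compact (a : ℕ) (k : ℕ × ℕ) : IsCompact (cell a k) := isCompact_Icc.prod isCompact_Icc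

/-! ### Scaling of Lebesgue measure -/

lemma map_line (c : ℝ) : Measure.map (fun u : ℝ => (u - c) / 4) volume =
    (4 : ℝ≥0∞) • (volume : Measure ℝ) := by
  have h1 : (fun u : ℝ => (u - c) / 4) = (fun u : ℝ => (1 / 4 : ℝ) * u) ∘ (fun u : ℝ => u - c) := by
    funext u
    simp only [Function.comp]
    ring
  have h2 : Measure.map (fun u : ℝ => u - c) volume = (volume : Measure ℝ) := by
    have := map_add_right_eq_self (volume : Measure ℝ) (-c)
    simpa [sub_eq_add_neg] using this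
  rw [h1, ← Measure.map_map (by fun_prop) (by fun_prop), h2,
    Real.map_volume_mul_left (by norm_num : (1 / 4 : ℝ) ≠ 0)]
  congr 1
  rw [show |(1 / 4 : ℝ)⁻¹| = 4 by norm_num]
  norm_num

lemma map_plane (c d : ℝ) : Measure.map (fun u : ℝ × ℝ => ((u.1 - c) / 4, (u.2 - d) / 4)) volume =
    (16 : ℝ≥0∞) • (volume : Measure (ℝ × ℝ)) := by
  have h1 : (fun u : ℝ × ℝ => ((u.1 - c) / 4, (u.2 - d) / 4)) =
      Prod.map (fun u : ℝ => (u - c) / 4) (fun u : ℝ => (u - d) / 4) := by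
    funext u
    rfl
  rw [h1, Measure.volume_eq_prod, ← Measure.map_prod_map _ _ (by fun_prop) (by fun_prop),
    map_line, map_line, Measure.prod_smul_left, Measure.prod_smul_right, smul_smul]
  congr 1
  norm_num

lemma map_sc : Measure.map sc volume = (16 : ℝ≥0∞) • (volume : Measure (ℝ × ℝ)) :=
  map_plane (1 / 2) (1 / 2)

lemma sc_cont : Continuous sc := by
  unfold sc
  fun_prop

lemma sc_smooth : ContDiff ℝ (⊤ : ℕ∞) sc := by
  unfold sc
  fun_prop

lemma sc_inj : Function.Injective sc := by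
  intro x y h
  unfold sc at h
  rw [Prod.mk.injEq] at h
  ext
  · linarith [h.1]
  · linarith [h.2]

lemma sc_emb : MeasurableEmbedding sc := sc_cont.measurableEmbedding sc_inj

lemma lint_sc (S : Set (ℝ × ℝ)) (f : ℝ × ℝ → ℝ≥0∞) :
    ∫⁻ z in sc ⁻¹' S, f (sc z) = 16 * ∫⁻ y in S, f y := by
  rw [← sc_emb.lintegral_map f, ← sc_emb.restrict_map, map_sc, Measure.restrict_smul,
    lintegral_smul_measure, smul_eq_mul]

lemma int_sc (S : Set (ℝ × ℝ)) (f : ℝ × ℝ → ℝ) :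
    ∫ z in sc ⁻¹' S, f (sc z) = 16 * ∫ y in S, f y := by
  rw [← sc_emb.integral_map f, ← sc_emb.restrict_map, map_sc, Measure.restrict_smul,
    integral_smul_measure]
  simp

lemma lint4 (φ : ℝ → ℝ≥0∞) (hφ : Measurable φ) : ∫⁻ v, φ (v / 4) = 4 * ∫⁻ v, φ v := by
  have h := map_line 0
  simp only [sub_zero] at h
  have h2 := lintegral_map (μ := volume) hφ (by fun_prop : Measurable fun u : ℝ => u / 4)
  rw [← h2, h, lintegral_smul_measure, smul_eq_mul]

lemma lint16 (φ : ℝ × ℝ → ℝ≥0∞) (hφ : Measurable φ) :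
    ∫⁻ v : ℝ × ℝ, φ (v.1 / 4, v.2 / 4) = 16 * ∫⁻ v, φ v := by
  have h := map_plane 0 0
  simp only [sub_zero] at h
  have h2 := lintegral_map (μ := volume) hφ
    (by fun_prop : Measurable fun u : ℝ × ℝ => (u.1 / 4, u.2 / 4))
  rw [← h2, h, lintegral_smul_measure, smul_eq_mul]

/-! ### Geometry -/

lemma pre_Dm : sc ⁻¹' Dm = Om := by
  ext z
  simp only [Dm, Om, box, sc, mem_preimage, mem_prod, mem_Icc, Prod.fst_zero, Prod.snd_zero]
  constructor
  · rintro ⟨⟨h1, h2⟩, h3, h4⟩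
    exact ⟨⟨by linarith, by linarith⟩, by linarith, by linarith⟩
  · rintro ⟨⟨h1, h2⟩, h3, h4⟩
    exact ⟨⟨by linarith, by linarith⟩, by linarith, by linarith⟩

lemma pre_cell (a : ℕ) (k : ℕ × ℕ) : sc ⁻¹' (box (sc (cen a k)) ((2 ^ a)⁻¹ / 4)) = cell a k := by
  ext z
  simp only [cell, box, sc, cen, mem_preimage, mem_prod, mem_Icc]
  have h2 : (0 : ℝ) < 2 ^ a := by positivity
  have e1 : ∀ x : ℝ, x / 2 ^ a = x * (2 ^ a)⁻¹ := fun x => div_eq_mul_inv _ _
  simp only [e1, sub_mul, add_mul, one_mul]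
  constructor
  · rintro ⟨⟨h1, h2⟩, h3, h4⟩
    exact ⟨⟨by linarith, by linarith⟩, by linarith, by linarith⟩
  · rintro ⟨⟨h1, h2⟩, h3, h4⟩
    exact ⟨⟨by linarith, by linarith⟩, by linarith, by linarith⟩

lemma grid_bd (a : ℕ) (k : ℕ × ℕ) (hk : k ∈ grid a) :
    |(sc (cen a k)).1| + (2 ^ a)⁻¹ / 4 ≤ 3 / 8 ∧ |(sc (cen a k)).2| + (2 ^ a)⁻¹ / 4 ≤ 3 / 8 := by
  have h2 : (0 : ℝ) < 2 ^ a := by positivity
  have h3 : ((2 : ℝ) ^ a)⁻¹ ≤ 1 := inv_le_one_of_one_le₀ (one_le_pow₀ (by norm_num))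
  have key : ∀ i : ℕ, i < 2 ^ a + 1 → |((i : ℝ) / 2 ^ a - 1 / 2) / 4| ≤ 1 / 8 := by
    intro i hi
    have h4 : (i : ℝ) ≤ 2 ^ a := by exact_mod_cast Nat.lt_succ_iff.1 hi
    have h5 : (i : ℝ) / 2 ^ a ≤ 1 := (div_le_one h2).2 h4
    have h6 : 0 ≤ (i : ℝ) / 2 ^ a := by positivity
    rw [abs_le]
    constructor <;> linarith
  unfold grid at hk
  rw [Finset.mem_product, Finset.mem_range, Finset.mem_range] at hk
  have k1 := key _ hk.1
  have k2 := key _ hk.2
  refine ⟨?_, ?_⟩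
  · change |((k.1 : ℝ) / 2 ^ a - 1 / 2) / 4| + _ ≤ _
    linarith
  · change |((k.2 : ℝ) / 2 ^ a - 1 / 2) / 4| + _ ≤ _
    linarith

/-! ### Chain rule -/

section chain

variable {f : ℝ × ℝ → ℝ}

lemma cd1 (h6 : S_der) (hf : ContDiff ℝ (⊤ : ℕ∞) f) (c : ℝ) :
    d1 (fun z => c * f (sc z)) = fun z => c / 4 * d1 f (sc z) := by
  funext z
  have h := (h6 f hf).2.2.1 (sc z)
  have h1 : HasDerivAt (fun u : ℝ => (u - 1 / 2) / 4) (1 / 4) z.1 :=
    ((hasDerivAt_id' z.1).sub_const (1 / 2 : ℝ)).div_const 4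
  have h2 : HasDerivAt (fun u : ℝ => f (sc (u, z.2))) (d1 f (sc z) * (1 / 4)) z.1 :=
    HasDerivAt.comp (h₂ := fun u => f (u, (sc z).2)) (h := fun u : ℝ => (u - 1 / 2) / 4) z.1 h h1
  unfold d1 at h2 ⊢
  rw [(h2.const_mul c).deriv]
  ring

lemma cd2 (h6 : S_der) (hf : ContDiff ℝ (⊤ : ℕ∞) f) (c : ℝ) :
    d2 (fun z => c * f (sc z)) = fun z => c / 4 * d2 f (sc z) := by
  funext z
  have h := (h6 f hf).2.2.2.1 (sc z)
  have h1 : HasDerivAt (fun u : ℝ => (u - 1 / 2) / 4) (1 / 4) z.2 :=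
    ((hasDerivAt_id' z.2).sub_const (1 / 2 : ℝ)).div_const 4
  have h2 : HasDerivAt (fun u : ℝ => f (sc (z.1, u))) (d2 f (sc z) * (1 / 4)) z.2 :=
    HasDerivAt.comp (h₂ := fun u => f ((sc z).1, u)) (h := fun u : ℝ => (u - 1 / 2) / 4) z.2 h h1
  unfold d2 at h2 ⊢
  rw [(h2.const_mul c).deriv]
  ring

end chain

/-- the derivatives of `g ∘ sc` -/
structure Ch (g G : ℝ × ℝ → ℝ) : Prop where
  e1 : ∀ z, d1 G z = 1 / 4 * d1 g (sc z)
  e2 : ∀ z, d2 G z = 1 / 4 * d2 g (sc z)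
  e11 : ∀ z, d1 (d1 G) z = 1 / 16 * d1 (d1 g) (sc z)
  e12 : ∀ z, d1 (d2 G) z = 1 / 16 * d1 (d2 g) (sc z)
  e22 : ∀ z, d2 (d2 G) z = 1 / 16 * d2 (d2 g) (sc z)
  e111 : ∀ z, d1 (d1 (d1 G)) z = 1 / 64 * d1 (d1 (d1 g)) (sc z)
  e222 : ∀ z, d2 (d2 (d2 G)) z = 1 / 64 * d2 (d2 (d2 g)) (sc z)

lemma ch (h6 : S_der) {g : ℝ × ℝ → ℝ} (hg : ContDiff ℝ (⊤ : ℕ∞) g) :
    Ch g (fun z => g (sc z)) := by
  have g1 := (h6 g hg).1
  have g2 := (h6 g hg).2.1
  have g11 := (h6 _ g1).1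
  have g22 := (h6 _ g2).2.1
  have f0 : (fun z => g (sc z)) = fun z => 1 * g (sc z) := by
    funext z; rw [one_mul]
  have f1 : d1 (fun z => g (sc z)) = fun z => 1 / 4 * d1 g (sc z) := by
    rw [f0, cd1 h6 hg]
  have f2 : d2 (fun z => g (sc z)) = fun z => 1 / 4 * d2 g (sc z) := by
    rw [f0, cd2 h6 hg]
  have f11 : d1 (d1 (fun z => g (sc z))) = fun z => 1 / 16 * d1 (d1 g) (sc z) := by
    rw [f1, cd1 h6 g1]
    norm_num
  have f12 : d1 (d2 (fun z => g (sc z))) = fun z => 1 / 16 * d1 (d2 g) (sc z) := by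
    rw [f2, cd1 h6 g2]
    norm_num
  have f22 : d2 (d2 (fun z => g (sc z))) = fun z => 1 / 16 * d2 (d2 g) (sc z) := by
    rw [f2, cd2 h6 g2]
    norm_num
  refine ⟨fun z => by rw [f1], fun z => by rw [f2], fun z => by rw [f11], fun z => by rw [f12],
    fun z => by rw [f22], fun z => ?_, fun z => ?_⟩
  · rw [f11, cd1 h6 g11]
    norm_num
  · rw [f22, cd2 h6 g22]
    norm_num

lemma ch_hess {g G : ℝ × ℝ → ℝ} (h : Ch g G) (z : ℝ × ℝ) : hess G z = 1 / 16 * hess g (sc z) := by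
  unfold hess
  rw [h.e11, h.e12, h.e22, abs_mul, abs_mul, abs_mul, abs_of_nonneg (by norm_num : (0 : ℝ) ≤ 1 / 16)]
  ring

lemma ch_det2 {g G : ℝ × ℝ → ℝ} (h : Ch g G) (z : ℝ × ℝ) :
    det2 G z = 1 / 256 * det2 g (sc z) := by
  unfold det2
  rw [h.e11, h.e12, h.e22]
  ring

lemma ch_NN {g G : ℝ × ℝ → ℝ} (h : Ch g G) (a : ℕ) (k : ℕ × ℕ) :
    NN G a k = ∫ v in box (sc (cen a k)) ((2 ^ a)⁻¹ / 4), hess g v := by
  unfold NN
  simp only [ch_hess h]
  rw [integral_const_mul, ← pre_cell, int_sc]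
  ring

/-! ### The theorem -/

theorem stame_thm (h1 : S_sd) (h2 : S_scell) (h3 : S_sarea) (h4 : S_sline) (h5 : S_tb)
    (h6 : S_hess) (h7 : S_der) (h8 : S_cell) (h9 : S_hh) : S_stame := by
  intro D
  obtain ⟨Cc, hCc, hcells⟩ := h2 D
  obtain ⟨Ca, hCa, harea⟩ := h3 D
  obtain ⟨Cl, hCl, hline⟩ := h4 D
  refine ⟨16 * Cc + 256 * Ca + 64 * Cl + 1600, fun A B hA hB => ?_⟩
  have hC1 : Cc ≤ 16 * Cc + 256 * Ca + 64 * Cl + 1600 := by linarith
  have hC1' : 16 * Cc ≤ 16 * Cc + 256 * Ca + 64 * Cl + 1600 := by linarith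
  have hC2 : 256 * Ca ≤ 16 * Cc + 256 * Ca + 64 * Cl + 1600 := by linarith
  have hC3 : 64 * Cl ≤ 16 * Cc + 256 * Ca + 64 * Cl + 1600 := by linarith
  have hC4 : (1600 : ℝ) ≤ 16 * Cc + 256 * Ca + 64 * Cl + 1600 := by linarith
  have hC0 : 0 ≤ 16 * Cc + 256 * Ca + 64 * Cl + 1600 := by linarith
  generalize 16 * Cc + 256 * Ca + 64 * Cl + 1600 = C at *
  obtain ⟨hsm, hph, -, -⟩ := h1 D A B hA hB
  have hhs : ContDiff ℝ (⊤ : ℕ∞) hh := h9.1
  -- the phases
  set B' : ℝ → MvPolynomial (Fin 2) ℝ := fun t => B + MvPolynomial.C t with hB'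
  have hBd : ∀ t, (B' t).totalDegree ≤ D := fun t => (hph t).2
  have hgsm : ∀ t, ContDiff ℝ (⊤ : ℕ∞) (sf A (B' t)) := fun t => (h1 D A (B' t) hA (hBd t)).1
  have hG : ∀ t, ph (fun z => sf A B (sc z)) (fun z => hh (sc z)) t =
      fun z => sf A (B' t) (sc z) := by
    intro t
    funext z
    have := congrFun (hph t).1 (sc z)
    exact this
  have hch : ∀ t, Ch (sf A (B' t)) (fun z => sf A (B' t) (sc z)) := fun t => ch h7 (hgsm t)
  have hinv : ∀ a : ℕ, 0 < ((2 : ℝ) ^ a)⁻¹ / 4 := fun a => by positivity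
  have hmem : ∀ a : ℕ, ∀ k ∈ grid a, ∀ y ∈ cell a k, sc y ∈ Dm ∧
      sc y ∈ box (sc (cen a k)) ((2 ^ a)⁻¹ / 4) := by
    intro a k hk y hy
    refine ⟨?_, ?_⟩
    · have : y ∈ sc ⁻¹' Dm := by rw [pre_Dm]; exact h8.1 a k hk hy
      exact this
    · have : y ∈ sc ⁻¹' (box (sc (cen a k)) ((2 ^ a)⁻¹ / 4)) := by rw [pre_cell]; exact hy
      exact this
  have hbox : ∀ (w : ℝ × ℝ) (r : ℝ), 0 < r → box w r ⊆ box w (8 * r) := by
    intro w r hr y hy
    simp only [box, mem_prod, mem_Icc] at hy ⊢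
    obtain ⟨⟨a1, a2⟩, a3, a4⟩ := hy
    exact ⟨⟨by linarith, by linarith⟩, by linarith, by linarith⟩
  have hr2 : ∀ a : ℕ, 1 / (((2 : ℝ) ^ a)⁻¹ / 4) ^ 2 = 16 * 4 ^ a := by
    intro a
    have h4a : (4 : ℝ) ^ a = (2 ^ a) ^ 2 := by rw [← pow_mul, mul_comm, pow_mul]; norm_num
    rw [h4a]
    field_simp
    norm_num
  have hr3 : ∀ a : ℕ, 1 / (((2 : ℝ) ^ a)⁻¹ / 4) ^ 3 = 64 * 8 ^ a := by
    intro a
    have h4a : (8 : ℝ) ^ a = (2 ^ a) ^ 3 := by rw [← pow_mul, mul_comm, pow_mul]; norm_num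
    rw [h4a]
    field_simp
    norm_num
  -- second derivatives as functions of the time
  have hsec : ∀ (t : ℝ) (w : ℝ × ℝ),
      d1 (d1 (sf A (B' t))) w = d1 (d1 (sf A B)) w + t * d1 (d1 hh) w ∧
      d1 (d2 (sf A (B' t))) w = d1 (d2 (sf A B)) w + t * d1 (d2 hh) w ∧
      d2 (d2 (sf A (B' t))) w = d2 (d2 (sf A B)) w + t * d2 (d2 hh) w := by
    intro t w
    obtain ⟨f1, f2, -, -, -, -, fph, -, -⟩ := h7 (sf A B) hsm
    obtain ⟨g1, g2, -, -, -, -, -, -, -⟩ := h7 hh hhs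
    have e1 : d1 (ph (sf A B) hh t) = ph (d1 (sf A B)) (d1 hh) t := by
      funext z
      exact (fph hh hhs t z).1
    have e2 : d2 (ph (sf A B) hh t) = ph (d2 (sf A B)) (d2 hh) t := by
      funext z
      exact (fph hh hhs t z).2
    obtain ⟨-, -, -, -, -, -, fph1, -, -⟩ := h7 (d1 (sf A B)) f1
    obtain ⟨-, -, -, -, -, -, fph2, -, -⟩ := h7 (d2 (sf A B)) f2
    have e0 : sf A (B' t) = ph (sf A B) hh t := (hph t).1.symm
    refine ⟨?_, ?_, ?_⟩
    · rw [e0, e1, (fph1 (d1 hh) g1 t w).1]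
    · rw [e0, e2, (fph2 (d2 hh) g2 t w).1]
    · rw [e0, e2, (fph2 (d2 hh) g2 t w).2]
  -- the line inequalities
  have hline' : ∀ (p q P Q : ℝ × ℝ → ℝ) (φ : ℝ → ℝ≥0∞), Measurable φ →
      (∀ z, P z = 1 / 4 * p (sc z)) → (∀ z, Q z = 1 / 16 * q (sc z)) →
      (∀ φ : ℝ → ℝ≥0∞, Measurable φ → ∫⁻ y in Dm, φ (p y) * ENNReal.ofReal |q y| ≤
        ENNReal.ofReal Cl * ∫⁻ v, φ v) →
      ∫⁻ y in sc ⁻¹' Dm, φ (P y) * ENNReal.ofReal |Q y| ≤ ENNReal.ofReal C * ∫⁻ v, φ v := by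
    intro p q P Q φ hφ hP hQ hl
    have hm1 : Measurable fun v : ℝ => φ (v / 4) := by fun_prop
    calc ∫⁻ y in sc ⁻¹' Dm, φ (P y) * ENNReal.ofReal |Q y|
        ≤ ∫⁻ y in sc ⁻¹' Dm, (fun w => φ (p w / 4) * ENNReal.ofReal |q w|) (sc y) := by
          apply lintegral_mono
          intro y
          simp only [hP, hQ]
          rw [show 1 / 4 * p (sc y) = p (sc y) / 4 by ring]
          refine mul_le_mul' le_rfl (ENNReal.ofReal_le_ofReal ?_)
          rw [abs_mul, abs_of_nonneg (by norm_num : (0 : ℝ) ≤ 1 / 16)]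
          linarith [abs_nonneg (q (sc y))]
      _ = 16 * ∫⁻ w in Dm, φ (p w / 4) * ENNReal.ofReal |q w| :=
          lint_sc Dm (fun w => φ (p w / 4) * ENNReal.ofReal |q w|)
      _ ≤ 16 * (ENNReal.ofReal Cl * ∫⁻ v : ℝ, φ (v / 4)) := by
          gcongr
          exact hl (fun v => φ (v / 4)) hm1
      _ = ENNReal.ofReal (64 * Cl) * ∫⁻ v, φ v := by
          rw [lint4 φ hφ, ENNReal.ofReal_mul (by norm_num)]
          have : ENNReal.ofReal 64 = 16 * 4 := by norm_num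
          rw [this]
          ring
      _ ≤ _ := by gcongr
  refine ⟨hsm.comp sc_smooth, hhs.comp sc_smooth, ?_, ?_, ?_, ?_, ?_, ?_, ?_, ?_, ?_⟩
  · intro t a k hk y hy
    rw [hG, ch_hess (hch t), ch_NN (hch t)]
    obtain ⟨m1, m2⟩ := hmem a k hk y hy
    obtain ⟨b1, b2⟩ := grid_bd a k hk
    have := (hcells A (B' t) hA (hBd t) _ _ (hinv a) b1 b2 _ m1 (hbox _ _ (hinv a) m2)).1
    rw [div_eq_mul_one_div, hr2] at this
    have hI : 0 ≤ ∫ v in box (sc (cen a k)) ((2 ^ a)⁻¹ / 4), hess (sf A (B' t)) v :=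
      integral_nonneg fun y => hess_nonneg _ y
    calc 1 / 16 * hess (sf A (B' t)) (sc y)
        ≤ 1 / 16 * (Cc * (16 * 4 ^ a) * ∫ v in box (sc (cen a k)) ((2 ^ a)⁻¹ / 4),
          hess (sf A (B' t)) v) := by gcongr
      _ = Cc * 4 ^ a * ∫ v in box (sc (cen a k)) ((2 ^ a)⁻¹ / 4), hess (sf A (B' t)) v := by ring
      _ ≤ _ := by gcongr
  · intro t a k hk y hy
    rw [hG, (hch t).e111, (hch t).e222, ch_NN (hch t)]
    obtain ⟨m1, m2⟩ := hmem a k hk y hy
    obtain ⟨b1, b2⟩ := grid_bd a k hk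
    have := (hcells A (B' t) hA (hBd t) _ _ (hinv a) b1 b2 _ m1 (hbox _ _ (hinv a) m2)).2
    rw [div_eq_mul_one_div, hr3] at this
    have hI : 0 ≤ ∫ v in box (sc (cen a k)) ((2 ^ a)⁻¹ / 4), hess (sf A (B' t)) v :=
      integral_nonneg fun y => hess_nonneg _ y
    rw [abs_mul, abs_mul, abs_of_nonneg (by norm_num : (0 : ℝ) ≤ 1 / 64), ← mul_add]
    calc 1 / 64 * (|d1 (d1 (d1 (sf A (B' t)))) (sc y)| + |d2 (d2 (d2 (sf A (B' t)))) (sc y)|)
        ≤ 1 / 64 * (Cc * (64 * 8 ^ a) * ∫ v in box (sc (cen a k)) ((2 ^ a)⁻¹ / 4),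
          hess (sf A (B' t)) v) := by gcongr
      _ = Cc * 8 ^ a * ∫ v in box (sc (cen a k)) ((2 ^ a)⁻¹ / 4), hess (sf A (B' t)) v := by ring
      _ ≤ _ := by gcongr
  · intro t a k hk k' hk' e1 e2
    rw [hG]
    have hGs : ContDiff ℝ (⊤ : ℕ∞) (fun z => sf A (B' t) (sc z)) := (hgsm t).comp sc_smooth
    have hcont : Continuous (hess (fun z => sf A (B' t) (sc z))) := (h7 _ hGs).2.2.2.2.2.2.2.1
    obtain ⟨b1, b2⟩ := grid_bd (a + 1) k hk
    have hI : 0 ≤ ∫ v in box (sc (cen (a + 1) k)) ((2 ^ (a + 1))⁻¹ / 4), hess (sf A (B' t)) v :=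
      integral_nonneg fun y => hess_nonneg _ y
    have hpt : ∀ y ∈ cell a k', hess (fun z => sf A (B' t) (sc z)) y ≤
        Cc * 4 ^ (a + 1) * NN (fun z => sf A (B' t) (sc z)) (a + 1) k := by
      intro y hy
      rw [ch_hess (hch t), ch_NN (hch t)]
      obtain ⟨m1, m2⟩ := hmem a k' hk' y hy
      have m3 : sc y ∈ box (sc (cen (a + 1) k)) (8 * ((2 ^ (a + 1))⁻¹ / 4)) := by
        have h2a : (0 : ℝ) < 2 ^ a := by positivity
        have key : ∀ (i j : ℕ), |2 * (j : ℤ) - i| ≤ 2 →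
            |((j : ℝ) / 2 ^ a - 1 / 2) / 4 - ((i : ℝ) / 2 ^ (a + 1) - 1 / 2) / 4| ≤
              2 * ((2 ^ (a + 1))⁻¹ / 4) := by
          intro i j hij
          have hij' : |2 * (j : ℝ) - i| ≤ 2 := by exact_mod_cast hij
          have e3 : ((j : ℝ) / 2 ^ a - 1 / 2) / 4 - ((i : ℝ) / 2 ^ (a + 1) - 1 / 2) / 4 =
              (2 * (j : ℝ) - i) * ((2 ^ (a + 1))⁻¹ / 4) := by
            rw [pow_succ]
            field_simp
            ring
          rw [e3, abs_mul, abs_of_pos (hinv (a + 1))]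
          exact mul_le_mul_of_nonneg_right hij' (hinv (a + 1)).le
        have hhalf : ((2 : ℝ) ^ a)⁻¹ / 4 = 2 * ((2 ^ (a + 1))⁻¹ / 4) := by
          rw [pow_succ]
          field_simp
        rw [hhalf] at m2
        have k1 := abs_le.1 (key _ _ e1)
        have k2 := abs_le.1 (key _ _ e2)
        simp only [box, mem_prod, mem_Icc] at m2 ⊢
        obtain ⟨⟨a1, a2⟩, a3, a4⟩ := m2
        have q1 : (sc (cen a k')).1 = ((k'.1 : ℝ) / 2 ^ a - 1 / 2) / 4 := rfl
        have q2 : (sc (cen a k')).2 = ((k'.2 : ℝ) / 2 ^ a - 1 / 2) / 4 := rfl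
        have q3 : (sc (cen (a + 1) k)).1 = ((k.1 : ℝ) / 2 ^ (a + 1) - 1 / 2) / 4 := rfl
        have q4 : (sc (cen (a + 1) k)).2 = ((k.2 : ℝ) / 2 ^ (a + 1) - 1 / 2) / 4 := rfl
        rw [← q1, ← q3] at k1
        rw [← q2, ← q4] at k2
        have hp := hinv (a + 1)
        exact ⟨⟨by linarith [k1.1, k1.2], by linarith [k1.1, k1.2]⟩,
          by linarith [k2.1, k2.2], by linarith [k2.1, k2.2]⟩
      have := (hcells A (B' t) hA (hBd t) _ _ (hinv (a + 1)) b1 b2 _ m1 m3).1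
      rw [div_eq_mul_one_div, hr2] at this
      calc 1 / 16 * hess (sf A (B' t)) (sc y)
          ≤ 1 / 16 * (Cc * (16 * 4 ^ (a + 1)) *
            ∫ v in box (sc (cen (a + 1) k)) ((2 ^ (a + 1))⁻¹ / 4),
            hess (sf A (B' t)) v) := by gcongr
        _ = _ := by ring
    have hvol : volume.real (cell a k') = 4 * (4 ^ a)⁻¹ := by
      rw [Measure.real, h8.2.1, ENNReal.toReal_ofReal (by positivity)]
    calc NN (fun z => sf A (B' t) (sc z)) a k'
        ≤ ∫ _ in cell a k', Cc * 4 ^ (a + 1) * NN (fun z => sf A (B' t) (sc z)) (a + 1) k := by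
          unfold NN at hpt ⊢
          refine setIntegral_mono_on ?_ ?_ (cell_compact a k').measurableSet hpt
          · exact hcont.continuousOn.integrableOn_compact (cell_compact a k')
          · exact continuous_const.continuousOn.integrableOn_compact (cell_compact a k')
      _ = 16 * Cc * NN (fun z => sf A (B' t) (sc z)) (a + 1) k := by
          rw [setIntegral_const, hvol, smul_eq_mul, pow_succ]
          field_simp
          ring
      _ ≤ C * NN (fun z => sf A (B' t) (sc z)) (a + 1) k := by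
          have := NN_nonneg (fun z => sf A (B' t) (sc z)) (a + 1) k
          gcongr
  · intro t φ hφ
    rw [hG, ← pre_Dm]
    have hm1 : Measurable fun v : ℝ × ℝ => φ (v.1 / 4, v.2 / 4) := by fun_prop
    calc ∫⁻ y in sc ⁻¹' Dm, φ (d1 (fun z => sf A (B' t) (sc z)) y,
          d2 (fun z => sf A (B' t) (sc z)) y) *
            ENNReal.ofReal |det2 (fun z => sf A (B' t) (sc z)) y|
        ≤ ∫⁻ y in sc ⁻¹' Dm, (fun w => φ (d1 (sf A (B' t)) w / 4, d2 (sf A (B' t)) w / 4) *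
            ENNReal.ofReal |det2 (sf A (B' t)) w|) (sc y) := by
          apply lintegral_mono
          intro y
          simp only [(hch t).e1, (hch t).e2, ch_det2 (hch t)]
          rw [show 1 / 4 * d1 (sf A (B' t)) (sc y) = d1 (sf A (B' t)) (sc y) / 4 by ring,
            show 1 / 4 * d2 (sf A (B' t)) (sc y) = d2 (sf A (B' t)) (sc y) / 4 by ring]
          refine mul_le_mul' le_rfl (ENNReal.ofReal_le_ofReal ?_)
          rw [abs_mul, abs_of_nonneg (by norm_num : (0 : ℝ) ≤ 1 / 256)]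
          linarith [abs_nonneg (det2 (sf A (B' t)) (sc y))]
      _ = 16 * ∫⁻ w in Dm, φ (d1 (sf A (B' t)) w / 4, d2 (sf A (B' t)) w / 4) *
            ENNReal.ofReal |det2 (sf A (B' t)) w| :=
          lint_sc Dm (fun w => φ (d1 (sf A (B' t)) w / 4, d2 (sf A (B' t)) w / 4) *
            ENNReal.ofReal |det2 (sf A (B' t)) w|)
      _ ≤ 16 * (ENNReal.ofReal Ca * ∫⁻ v : ℝ × ℝ, φ (v.1 / 4, v.2 / 4)) := by
          gcongr
          exact harea A (B' t) hA (hBd t) (fun v => φ (v.1 / 4, v.2 / 4)) hm1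
      _ = ENNReal.ofReal (256 * Ca) * ∫⁻ v, φ v := by
          rw [lint16 φ hφ, ENNReal.ofReal_mul (by norm_num)]
          have : ENNReal.ofReal 256 = 16 * 16 := by norm_num
          rw [this]
          ring
      _ ≤ _ := by gcongr
  · intro t φ hφ
    rw [hG, ← pre_Dm]
    refine hline' _ _ _ _ φ hφ (fun z => (hch t).e1 z) (fun z => (hch t).e11 z) fun φ hφ => ?_
    exact (hline A (B' t) hA (hBd t) φ hφ).1
  · intro t φ hφ
    rw [hG, ← pre_Dm]
    refine hline' _ _ _ _ φ hφ (fun z => (hch t).e1 z) (fun z => (hch t).e12 z) fun φ hφ => ?_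
    exact (hline A (B' t) hA (hBd t) φ hφ).2.1
  · intro t φ hφ
    rw [hG, ← pre_Dm]
    refine hline' _ _ _ _ φ hφ (fun z => (hch t).e2 z) (fun z => (hch t).e22 z) fun φ hφ => ?_
    exact (hline A (B' t) hA (hBd t) φ hφ).2.2
  · intro y hy L Δ hL hΔ
    have hy' : sc y ∈ Dm := by
      have : y ∈ sc ⁻¹' Dm := by rw [pre_Dm]; exact hy
      exact this
    obtain ⟨s1, s2, s3, s4, s5, s6, -⟩ := h6 (sc y) hy'
    have hset : {t : ℝ | L ≤ hess (ph (fun z => sf A B (sc z)) (fun z => hh (sc z)) t) y ∧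
        |det2 (ph (fun z => sf A B (sc z)) (fun z => hh (sc z)) t) y| ≤ Δ} ⊆
        {t : ℝ | 16 * L ≤ |-(d1 (d1 (sf A B)) (sc y)) + t * -(d1 (d1 hh) (sc y))| +
          |-(d1 (d2 (sf A B)) (sc y)) + t * -(d1 (d2 hh) (sc y))| +
          |-(d2 (d2 (sf A B)) (sc y)) + t * -(d2 (d2 hh) (sc y))| ∧
          |(-(d1 (d1 (sf A B)) (sc y)) + t * -(d1 (d1 hh) (sc y))) *
            (-(d2 (d2 (sf A B)) (sc y)) + t * -(d2 (d2 hh) (sc y))) -
            (-(d1 (d2 (sf A B)) (sc y)) + t * -(d1 (d2 hh) (sc y))) ^ 2| ≤ 256 * Δ} := by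
      intro t ht
      rw [mem_ofPred_eq, hG, ch_hess (hch t), ch_det2 (hch t)] at ht
      obtain ⟨t1, t2, t3⟩ := hsec t (sc y)
      have u1 : d1 (d1 (sf A (B' t))) (sc y) =
          -(-(d1 (d1 (sf A B)) (sc y)) + t * -(d1 (d1 hh) (sc y))) := by rw [t1]; ring
      have u2 : d1 (d2 (sf A (B' t))) (sc y) =
          -(-(d1 (d2 (sf A B)) (sc y)) + t * -(d1 (d2 hh) (sc y))) := by rw [t2]; ring
      have u3 : d2 (d2 (sf A (B' t))) (sc y) =
          -(-(d2 (d2 (sf A B)) (sc y)) + t * -(d2 (d2 hh) (sc y))) := by rw [t3]; ring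
      rw [mem_ofPred_eq]
      unfold hess det2 at ht
      rw [u1, u2, u3, abs_neg, abs_neg, abs_neg, abs_mul, abs_of_nonneg
        (by norm_num : (0 : ℝ) ≤ 1 / 256), neg_mul_neg, neg_sq] at ht
      exact ⟨by linarith [ht.1], by linarith [ht.2]⟩
    refine (measure_mono hset).trans ((h5 _ _ _ _ _ _ (16 * L) (256 * Δ) (by positivity)
      (by positivity) s1 s2 s3 s4 (by rw [abs_neg]; exact s5) ?_).trans ?_)
    · unfold det2 at s6
      linarith
    · apply ENNReal.ofReal_le_ofReal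
      have : 100 * (256 * Δ) / (16 * L) = 1600 * Δ / L := by
        field_simp
        ring
      rw [this]
      gcongr
  · intro k hk
    have hchh : Ch hh (fun z => hh (sc z)) := ch h7 hhs
    have hch0 : Ch (sf A B) (fun z => sf A B (sc z)) := ch h7 hsm
    have hcontA : Continuous (d1 (d1 (fun z => sf A B (sc z)))) :=
      (h7 _ (h7 _ (hsm.comp sc_smooth)).1).1.continuous
    have hcontH : Continuous (d1 (d1 (fun z => hh (sc z)))) :=
      (h7 _ (h7 _ (hhs.comp sc_smooth)).1).1.continuous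
    have hvol : volume.real (cell 0 k) = 4 := by
      rw [Measure.real, h8.2.1, ENNReal.toReal_ofReal (by positivity)]
      norm_num
    set c : ℝ := ∫ y in cell 0 k, d1 (d1 (fun z => sf A B (sc z))) y with hc
    set e : ℝ := ∫ y in cell 0 k, d1 (d1 (fun z => hh (sc z))) y with he
    have he4 : e ≤ -(1 / 4) := by
      have : e ≤ ∫ _ in cell 0 k, (-(1 / 16) : ℝ) := by
        refine setIntegral_mono_on (hcontH.continuousOn.integrableOn_compact (cell_compact 0 k))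
          (continuous_const.continuousOn.integrableOn_compact (cell_compact 0 k))
          (cell_compact 0 k).measurableSet ?_
        intro y hy
        rw [hchh.e11]
        have := (h6 (sc y) (hmem 0 k hk y hy).1).2.2.2.2.2.2
        linarith
      rw [setIntegral_const, hvol, smul_eq_mul] at this
      linarith
    have hlow : ∀ t, |c + t * e| ≤
        NN (ph (fun z => sf A B (sc z)) (fun z => hh (sc z)) t) 0 k := by
      intro t
      have hGs : ContDiff ℝ (⊤ : ℕ∞) (ph (fun z => sf A B (sc z)) (fun z => hh (sc z)) t) := by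
        rw [hG]
        exact (hgsm t).comp sc_smooth
      have hcont2 : Continuous (d1 (d1 (ph (fun z => sf A B (sc z)) (fun z => hh (sc z)) t))) :=
        (h7 _ (h7 _ hGs).1).1.continuous
      have hhess : Continuous (hess (ph (fun z => sf A B (sc z)) (fun z => hh (sc z)) t)) :=
        (h7 _ hGs).2.2.2.2.2.2.2.1
      have e1 : ∫ y in cell 0 k, d1 (d1 (ph (fun z => sf A B (sc z)) (fun z => hh (sc z)) t)) y =
          c + t * e := by
        have e2 : ∀ y, d1 (d1 (ph (fun z => sf A B (sc z)) (fun z => hh (sc z)) t)) y =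
            d1 (d1 (fun z => sf A B (sc z))) y + t * d1 (d1 (fun z => hh (sc z))) y := by
          intro y
          rw [hG, (hch t).e11, hch0.e11, hchh.e11, (hsec t (sc y)).1]
          ring
        simp only [e2]
        rw [integral_add (hcontA.continuousOn.integrableOn_compact (cell_compact 0 k))
          ((hcontH.const_mul t).continuousOn.integrableOn_compact (cell_compact 0 k)),
          integral_const_mul]
      rw [← e1]
      refine (abs_integral_le_integral_abs).trans ?_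
      unfold NN
      refine setIntegral_mono_on ?_ ?_ (cell_compact 0 k).measurableSet ?_
      · exact hcont2.abs.continuousOn.integrableOn_compact (cell_compact 0 k)
      · exact hhess.continuousOn.integrableOn_compact (cell_compact 0 k)
      · intro y _
        unfold hess
        have i1 := abs_nonneg (d1 (d2 (ph (fun z => sf A B (sc z)) (fun z => hh (sc z)) t)) y)
        have i2 := abs_nonneg (d2 (d2 (ph (fun z => sf A B (sc z)) (fun z => hh (sc z)) t)) y)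
        linarith
    have hsub : {t : ℝ | NN (ph (fun z => sf A B (sc z)) (fun z => hh (sc z)) t) 0 k ≤ 1} ⊆
        Icc ((c - 1) / -e) ((c + 1) / -e) := by
      intro t ht
      have h8 : |c + t * e| ≤ 1 := (hlow t).trans ht
      have hne : 0 < -e := by linarith
      rw [abs_le] at h8
      constructor
      · rw [div_le_iff₀ hne]; linarith [h8.2]
      · rw [le_div_iff₀ hne]; linarith [h8.1]
    refine (measure_mono hsub).trans ?_
    rw [Real.volume_Icc]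
    apply ENNReal.ofReal_le_ofReal
    have hne : 0 < -e := by linarith
    have : (c + 1) / -e - (c - 1) / -e = 2 / -e := by
      rw [← sub_div]
      congr 1
      ring
    rw [this, div_le_iff₀ hne]
    nlinarith

end Pool.Agent.W410.PC
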